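import Pool.Agent.H906.Assoc.Disp

/-!
# Positive association of the total-displacement measure on permutations

`MP_7e7ec7_co`, Q1.  For every `n` and every `0 < q ≤ 1` the measure on `S_n` proportional to
`q ^ D(a)`, where `D(a) = ∑ |i - pos(a, i)|`, is positively associated: `μ(A ∩ B) ≥ μ(A) μ(B)` for
all strong up-sets `A` and `B`.

The proof explores the permutation as a matching.  Positions and elements arrive in the order
`1, 1, 2, 2, ...`; an arriving item is either matched to an open item of the other kind or stays
open.  After each pair of arrivals a factor `q ^ (number of open items)` is charged; the total is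
`q ^ D(a)`.  The choices at each arrival form a chain (the open item with the smallest label comes first,
and staying open comes last).  The main lemma (`Pool/Agent/H906/Assoc/Gain2.lean`) says that, for every
increasing function, the conditional expectation given the past decreases along this chain.  It
follows by an explicit coupling from the inequality `z₁² ≤ z₀ (z₁ + z₂)` between consecutive values
of the partition function of the remaining steps (`Zcond` in `Pool/Agent/H906/Assoc/Gain.lean`),
which is preserved by each arrival, and by each charge because `q ≤ 1`.  Positive association then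
follows by induction and Chebyshev's sum inequality (`Pool/Agent/H906/Assoc/PosAssoc.lean`).
-/

set_option autoImplicit false

namespace Pool.Agent.Results.MP_7e7ec7_co.DisplacementAssociated

/-- An element of `S_n` is a permutation `a` of `Fin n`; `a k` is the entry at position `k`, so the
position of the element `i` is `a.symm i`.  The total displacement `∑ |i - pos(a, i)|`. -/
def D {n : ℕ} (a : Equiv.Perm (Fin n)) : ℕ := ∑ i : Fin n, ((i : ℤ) - (a.symm i : ℤ)).natAbs

/-- `A` is a strong up-set: whenever `a ∈ A` and `{i, j}` with `i < j` is an inversion of `a` (the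
position of `i` is greater than the position of `j`), the permutation obtained from `a` by
exchanging the entries `i` and `j` is in `A`. -/
def IsStrongUpSet {n : ℕ} (A : Finset (Equiv.Perm (Fin n))) : Prop :=
  ∀ a ∈ A, ∀ i j : Fin n, i < j → a.symm i > a.symm j → Equiv.swap i j * a ∈ A

/-- the measure `μ_{n,q}(A)` of a family `A` -/
noncomputable def mu {n : ℕ} (q : ℝ) (A : Finset (Equiv.Perm (Fin n))) : ℝ :=
  (∑ a ∈ A, q ^ D a) / ∑ b : Equiv.Perm (Fin n), q ^ D b

open Pool.Agent.H906.Assoc in
theorem D_eq {n : ℕ} (a : Equiv.Perm (Fin n)) : D a = disp n (ext a) := by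
  unfold D disp
  rw [Finset.sum_range]
  have h : ∀ i : Fin n, (ext a i - i) + (i - ext a i) = ((a i : ℤ) - (i : ℤ)).natAbs := by
    intro i
    have e : ext a i = (a i : ℕ) := ext_lt a i i.2
    rw [e]
    omega
  rw [Finset.sum_congr rfl fun i _ => h i]
  refine (Equiv.sum_comp a (fun i : Fin n => ((i : ℤ) - (a.symm i : ℤ)).natAbs)).symm.trans ?_
  simp

/-- For every `n`, every `0 < q ≤ 1` and all strong up-sets `A`, `B` of `S_n`,
`μ_{n,q}(A) μ_{n,q}(B) ≤ μ_{n,q}(A ∩ B)`. -/
theorem result (n : ℕ) (q : ℝ) (hq0 : 0 < q) (hq1 : q ≤ 1) (A B : Finset (Equiv.Perm (Fin n)))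
    (hA : IsStrongUpSet A) (hB : IsStrongUpSet B) : mu q A * mu q B ≤ mu q (A ∩ B) := by
  have h := Pool.Agent.H906.Assoc.main hq0.le hq1 (A := A) (B := B) hA hB
  simp only [← D_eq] at h
  have hpos : 0 < ∑ b : Equiv.Perm (Fin n), q ^ D b :=
    Finset.sum_pos (fun b _ => pow_pos hq0 _) ⟨1, Finset.mem_univ _⟩
  unfold mu
  rw [div_mul_div_comm, div_le_div_iff₀ (mul_pos hpos hpos) hpos]
  calc _ ≤ ((∑ a ∈ A ∩ B, q ^ D a) * ∑ b : Equiv.Perm (Fin n), q ^ D b) *
        ∑ b : Equiv.Perm (Fin n), q ^ D b := mul_le_mul_of_nonneg_right h hpos.le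
    _ = _ := by ring

end Pool.Agent.Results.MP_7e7ec7_co.DisplacementAssociated
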